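import Pool.Agent.H57.AV.Loop7
import Pool.Agent.H81.AV.Final5

/-!
# Spheres of even dimension at scales between `π / 4` and `arccos ((√5 - 1) / 2)`
-/

namespace Pool.Agent.H57.AV

open Pool.Agent.H73.Avr hiding cl
open Pool.Agent.H71.AV Pool.Agent.H70.AV
open Pool.Agent.H89.AVB
open Pool.Agent.H81.AV (swp even_loop5)

/-! ## Bounded Lipschitz functions -/

/-- bounded and Lipschitz for the geodesic distance -/
def BL {n : ℕ} (f : Sph n → ℝ) : Prop :=
  ∃ B L : ℝ, 0 ≤ B ∧ 0 ≤ L ∧ (∀ x, |f x| ≤ B) ∧ ∀ x y, |f x - f y| ≤ L * geo n x y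

theorem BL.cont {n : ℕ} {r : ℝ} {f : Sph n → ℝ} (h : BL f) :
    Continuous fun μ : AVR (geo n) r => ri f μ.w := by
  obtain ⟨B, L, -, hL, -, h1⟩ := h
  refine continuous_ri (L := L + 1) (by linarith) fun x y => ?_
  have h2 := geo_nonneg x y
  have h3 := h1 x y
  linarith

theorem BL.const {n : ℕ} (c : ℝ) : BL (fun _ : Sph n => c) :=
  ⟨|c|, 0, abs_nonneg _, le_refl _, fun _ => le_refl _, fun x y => by simp⟩

theorem BL.coord {n : ℕ} (i : Fin (n + 1)) : BL (fun x : Sph n => x.1 i) := by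
  refine ⟨1, 1, zero_le_one, zero_le_one, fun x => ?_, fun x y => ?_⟩
  · have h1 := sum_sq_eq_one x
    have h2 : x.1 i ^ 2 ≤ ∑ j, x.1 j ^ 2 :=
      Finset.single_le_sum (f := fun j => x.1 j ^ 2) (fun j _ => sq_nonneg _) (Finset.mem_univ i)
    rw [h1] at h2
    exact (sq_le_one_iff_abs_le_one _).1 h2
  · have h := rmon_lipschitz (n := n) ![i] x y
    unfold rmon at h
    rw [Fin.prod_univ_one, Fin.prod_univ_one] at h
    have e : (![i] : Fin 1 → Fin (n + 1)) 0 = i := rfl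
    rw [e] at h
    exact_mod_cast h

theorem BL.sub {n : ℕ} {f g : Sph n → ℝ} (hf : BL f) (hg : BL g) : BL (fun x => f x - g x) := by
  obtain ⟨B, L, hB, hL, h1, h2⟩ := hf
  obtain ⟨B', L', hB', hL', h1', h2'⟩ := hg
  refine ⟨B + B', L + L', by linarith, by linarith, fun x => ?_, fun x y => ?_⟩
  · exact (abs_sub _ _).trans (add_le_add (h1 x) (h1' x))
  · have e : f x - g x - (f y - g y) = (f x - f y) - (g x - g y) := by ring
    rw [e, add_mul]
    exact (abs_sub _ _).trans (add_le_add (h2 x y) (h2' x y))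

theorem BL.add {n : ℕ} {f g : Sph n → ℝ} (hf : BL f) (hg : BL g) : BL (fun x => f x + g x) := by
  obtain ⟨B, L, hB, hL, h1, h2⟩ := hf
  obtain ⟨B', L', hB', hL', h1', h2'⟩ := hg
  refine ⟨B + B', L + L', by linarith, by linarith, fun x => ?_, fun x y => ?_⟩
  · exact (abs_add_le _ _).trans (add_le_add (h1 x) (h1' x))
  · have e : f x + g x - (f y + g y) = (f x - f y) + (g x - g y) := by ring
    rw [e, add_mul]
    exact (abs_add_le _ _).trans (add_le_add (h2 x y) (h2' x y))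

theorem BL.mul {n : ℕ} {f g : Sph n → ℝ} (hf : BL f) (hg : BL g) : BL (fun x => f x * g x) := by
  obtain ⟨B, L, hB, hL, h1, h2⟩ := hf
  obtain ⟨B', L', hB', hL', h1', h2'⟩ := hg
  refine ⟨B * B', B * L' + L * B', mul_nonneg hB hB',
    add_nonneg (mul_nonneg hB hL') (mul_nonneg hL hB'), fun x => ?_, fun x y => ?_⟩
  · rw [abs_mul]
    exact mul_le_mul (h1 x) (h1' x) (abs_nonneg _) hB
  · have e : f x * g x - f y * g y = f x * (g x - g y) + (f x - f y) * g y := by ring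
    have hg0 := geo_nonneg x y
    rw [e]
    refine (abs_add_le _ _).trans ?_
    rw [abs_mul, abs_mul]
    have k1 : |f x| * |g x - g y| ≤ B * (L' * geo n x y) :=
      mul_le_mul (h1 x) (h2' x y) (abs_nonneg _) hB
    have k2 : |f x - f y| * |g y| ≤ L * geo n x y * B' :=
      mul_le_mul (h2 x y) (h1' y) (abs_nonneg _) (mul_nonneg hL hg0)
    linarith

theorem BL.max0 {n : ℕ} {f : Sph n → ℝ} (hf : BL f) : BL (fun x => max 0 (f x)) := by
  obtain ⟨B, L, hB, hL, h1, h2⟩ := hf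
  refine ⟨B, L, hB, hL, fun x => ?_, fun x y => ?_⟩
  · rw [abs_of_nonneg (le_max_left _ _)]
    exact max_le hB ((le_abs_self _).trans (h1 x))
  · refine le_trans ?_ (h2 x y)
    have k := abs_max_sub_max_le_max (0 : ℝ) (f x) 0 (f y)
    refine k.trans (max_le ?_ le_rfl)
    rw [sub_self, abs_zero]
    exact abs_nonneg _

theorem BL.sq {n : ℕ} {f : Sph n → ℝ} (hf : BL f) : BL (fun x => f x ^ 2) := by
  have h := hf.mul hf
  have e : (fun x => f x ^ 2) = fun x => f x * f x := by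
    funext x
    ring
  rw [e]
  exact h

/-! ## The functions in all dimensions -/

/-- `t7` in the first three coordinates -/
noncomputable def t7n (c : ℝ) (m : ℕ) (x : Sph (2 * m + 2)) : ℝ :=
  ((1 - c) / 4 - x.1 (i0 m) ^ 2) *
    ((x.1 (i1 m) ^ 2 + x.1 (i2 m) ^ 2) ^ 2 - 8 * (x.1 (i1 m) ^ 2 * x.1 (i2 m) ^ 2))

/-- `n7` in the first coordinate -/
noncomputable def n7n (c : ℝ) (m : ℕ) (x : Sph (2 * m + 2)) : ℝ :=
  max 0 (x.1 (i0 m) ^ 2 - c) * (1 - c)⁻¹

theorem continuous_t7n (c : ℝ) (m : ℕ) {r : ℝ} :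
    Continuous fun μ : AVR (geo (2 * m + 2)) r => ri (t7n c m) μ.w := by
  refine BL.cont ?_
  have a0 := (BL.coord (n := 2 * m + 2) (i0 m)).sq
  have a1 := (BL.coord (n := 2 * m + 2) (i1 m)).sq
  have a2 := (BL.coord (n := 2 * m + 2) (i2 m)).sq
  exact ((BL.const ((1 - c) / 4)).sub a0).mul
    ((a1.add a2).sq.sub ((BL.const 8).mul (a1.mul a2)))

theorem continuous_n7n (c : ℝ) (m : ℕ) {r : ℝ} :
    Continuous fun μ : AVR (geo (2 * m + 2)) r => ri (n7n c m) μ.w := by
  refine BL.cont ?_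
  have a0 := (BL.coord (n := 2 * m + 2) (i0 m)).sq
  exact (a0.sub (BL.const c)).max0.mul (BL.const _)

theorem ri_t7n (c : ℝ) (m : ℕ) {r : ℝ} (ν : AVR (geo 2) r) :
    ri (t7n c m) (H71.SM.push m ν).w = ri (t7 c) ν.w := by
  have h : (fun y => t7n c m (H71.SM.inc m y)) = t7 c := by
    funext y
    unfold t7n t7
    rw [inc_i0, inc_i1, inc_i2]
  rw [H71.SM.ri_push, h]

theorem ri_n7n (c : ℝ) (m : ℕ) {r : ℝ} (ν : AVR (geo 2) r) :
    ri (n7n c m) (H71.SM.push m ν).w = ri (n7 c) ν.w := by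
  have h : (fun y => n7n c m (H71.SM.inc m y)) = n7 c := by
    funext y
    unfold n7n n7
    rw [inc_i0, div_eq_mul_inv]
  rw [H71.SM.ri_push, h]

/-- the window from `π / 4` to `arccos ((√5 - 1) / 2)` for all even dimensions -/
theorem not_contractible_even_seven (m : ℕ) {r : ℝ} (h1 : Real.pi / 4 < r)
    (h2 : r ≤ Real.pi / 3) (h3 : 1 ≤ Real.cos r ^ 2 + Real.cos r) :
    ¬ ContractibleSpace (AVR (geo (2 * m + 2)) r) := by
  intro hcon
  have hpi := Real.pi_pos
  have hr0 : 0 < r := by linarith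
  have hrpi : r ≤ Real.pi := by linarith
  have hc0 : 1 / 2 ≤ Real.cos r := by
    rw [← Real.cos_pi_div_three]
    exact Real.cos_le_cos_of_nonneg_of_le_pi hr0.le (by linarith) h2
  have hc1 : Real.cos r < √2 / 2 := by
    rw [← Real.cos_pi_div_four]
    exact Real.cos_lt_cos_of_nonneg_of_le_pi (by linarith) hrpi h1
  have hc : 2 * Real.cos r ^ 2 < 1 := by
    have h4 : √2 ^ 2 = 2 := Real.sq_sqrt (by norm_num)
    have h5 : 0 ≤ √2 := Real.sqrt_nonneg 2
    nlinarith
  have hc2 : Real.cos r < 1 := by nlinarith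
  obtain ⟨pth, hpc, hpf, hps, hglue, g0, gA, gB, grest⟩ :=
    exists_loop7 hr0.le hrpi hc0 h3 hc2
  refine even_loop5 m hr0 hcon (fun μ => ri (t7n (Real.cos r) m) μ.w)
    (fun μ => e7 (Real.cos r) * (ri (n7n (Real.cos r) m) μ.w - 1 / 3))
    (continuous_t7n _ m)
    (continuous_const.mul ((continuous_n7n _ m).sub continuous_const)) ?_
    pth hpc hpf hps hglue ?_ ?_ ?_ ?_
  · intro ν hf hs ht hh
    simp only [ri_t7n, ri_n7n] at ht hh
    have h5 := key7 hr0.le (by linarith) hc hf hs ht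
    have h6 : e7 (Real.cos r) ≠ 0 := by
      unfold e7
      have k1 : 0 < (1 - Real.cos r) / 4 := by linarith
      have k2 : 0 < (1 + Real.cos r) / 2 := by linarith
      positivity
    rcases mul_eq_zero.1 hh with h7 | h7
    · exact h6 h7
    · exact h5 (by linarith)
  · intro u
    show 0 < e7 (Real.cos r) * (ri (n7n (Real.cos r) m) (H71.SM.push m (pth 0 u)).w - 1 / 3)
    rw [ri_n7n]
    exact g0 u
  · show |e7 (Real.cos r) * (ri (n7n (Real.cos r) m) (H71.SM.push m (pth 0 0)).w - 1 / 3)| <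
      ri (t7n (Real.cos r) m) (H71.SM.push m (pth 0 0)).w
    rw [ri_n7n, ri_t7n]
    exact gA
  · show |e7 (Real.cos r) * (ri (n7n (Real.cos r) m) (H71.SM.push m (pth 0 1)).w - 1 / 3)| <
      -ri (t7n (Real.cos r) m) (H71.SM.push m (pth 0 1)).w
    rw [ri_n7n, ri_t7n]
    exact gB
  · intro i hi u
    show e7 (Real.cos r) * (ri (n7n (Real.cos r) m) (H71.SM.push m (pth i u)).w - 1 / 3) <
      |ri (t7n (Real.cos r) m) (H71.SM.push m (pth i u)).w|
    rw [ri_n7n, ri_t7n]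
    exact grest i hi u

end Pool.Agent.H57.AV
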