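import Pool.Agent.H81.AV.Loop5

/-!
# Measures on the two-sphere invariant under all sign changes and a swap, scales above `π / 4`
-/

namespace Pool.Agent.H57.AV

open Pool.Agent.H73.Avr hiding cl
open Pool.Agent.H71.AV Pool.Agent.H70.AV
open Pool.Agent.H81.AV (swp swp_apply swp_swp)

/-- the function whose sign separates the two kinds of orbits -/
noncomputable def t7 (c : ℝ) (x : Sph 2) : ℝ :=
  ((1 - c) / 4 - x.1 0 ^ 2) * ((x.1 1 ^ 2 + x.1 2 ^ 2) ^ 2 - 8 * (x.1 1 ^ 2 * x.1 2 ^ 2))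

/-- a bump at the two points on the first axis -/
noncomputable def n7 (c : ℝ) (x : Sph 2) : ℝ := max 0 (x.1 0 ^ 2 - c) / (1 - c)

private theorem inner_le_cos {n : ℕ} {r : ℝ} (h0 : 0 ≤ r) (μ : AVR (geo n) r)
    {x y : Sph n} (hx : x ∈ μ.w.support) (hy : y ∈ μ.w.support) (hxy : x ≠ y) :
    inner ℝ x.1 y.1 ≤ Real.cos r := by
  have h1 : r ≤ InnerProductGeometry.angle x.1 y.1 := μ.spread x hx y hy hxy
  have h2 := Real.cos_le_cos_of_nonneg_of_le_pi h0 (InnerProductGeometry.angle_le_pi x.1 y.1) h1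
  have h3 := InnerProductGeometry.cos_angle_mul_norm_mul_norm x.1 y.1
  rw [mem_sphere_zero_iff_norm.1 x.2, mem_sphere_zero_iff_norm.1 y.2, one_mul, mul_one] at h3
  linarith

private theorem sum3 (x : Sph 2) : x.1 0 ^ 2 + x.1 1 ^ 2 + x.1 2 ^ 2 = 1 := by
  have h := sum_sq_eq_one x
  rw [Fin.sum_univ_three] at h
  exact h

private theorem inner3 (x y : Sph 2) :
    inner ℝ x.1 y.1 = x.1 0 * y.1 0 + x.1 1 * y.1 1 + x.1 2 * y.1 2 := by
  rw [inner_eq_sum, Fin.sum_univ_three]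

private theorem swp0 (x : Sph 2) : (swp x).1 0 = x.1 0 := by
  rw [swp_apply]
  have e0 : (Equiv.swap (1 : Fin 3) 2) 0 = 0 := by decide
  rw [e0]

private theorem swp1 (x : Sph 2) : (swp x).1 1 = x.1 2 := by
  rw [swp_apply]
  have e0 : (Equiv.swap (1 : Fin 3) 2) 1 = 2 := by decide
  rw [e0]

private theorem swp2 (x : Sph 2) : (swp x).1 2 = x.1 1 := by
  rw [swp_apply]
  have e0 : (Equiv.swap (1 : Fin 3) 2) 2 = 1 := by decide
  rw [e0]

section

variable {r : ℝ} {μ : AVR (geo 2) r}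

private theorem flip_mem (hinv : ∀ j x, μ.w (flip j x) = μ.w x) {x : Sph 2}
    (hx : x ∈ μ.w.support) (j : Fin 3) : flip j x ∈ μ.w.support := by
  rw [Finsupp.mem_support_iff] at hx ⊢
  rw [hinv]
  exact hx

private theorem swp_mem (hsw : ∀ x, μ.w (swp x) = μ.w x) {x : Sph 2}
    (hx : x ∈ μ.w.support) : swp x ∈ μ.w.support := by
  rw [Finsupp.mem_support_iff] at hx ⊢
  rw [hsw]
  exact hx

/-- points of different orbits under the sign changes -/
private theorem two_orb (h0 : 0 ≤ r) (hinv : ∀ j x, μ.w (flip j x) = μ.w x) {x y : Sph 2}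
    (hx : x ∈ μ.w.support) (hy : y ∈ μ.w.support) {j : Fin 3} (hj : x.1 j ^ 2 ≠ y.1 j ^ 2) :
    |x.1 0| * |y.1 0| + |x.1 1| * |y.1 1| + |x.1 2| * |y.1 2| ≤ Real.cos r := by
  obtain ⟨z, hz, h1, h2⟩ := exists_aligned μ hinv x hy Finset.univ
  have hzx : x ≠ z := by
    intro h
    apply hj
    rw [← h1 j, ← h]
  have h3 := inner_le_cos h0 μ hx hz hzx
  have habs : ∀ i, x.1 i * z.1 i = |x.1 i| * |y.1 i| := fun i => by
    have h4 : |z.1 i| = |y.1 i| := by
      rw [← Real.sqrt_sq_eq_abs, ← Real.sqrt_sq_eq_abs, h1 i]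
    rw [← h4, ← abs_mul, abs_of_nonneg (h2 i (Finset.mem_univ i))]
  rw [inner3, habs, habs, habs] at h3
  exact h3

private theorem sq_ge (h0 : 0 ≤ r) (hinv : ∀ j x, μ.w (flip j x) = μ.w x) {x : Sph 2}
    (hx : x ∈ μ.w.support) {j : Fin 3} (hj : x.1 j ≠ 0) : (1 - Real.cos r) / 2 ≤ x.1 j ^ 2 := by
  have h1 := inner_le_cos h0 μ hx (flip_mem hinv hx j) (Ne.symm (flip_ne hj))
  rw [inner_flip] at h1
  linarith

private theorem pole_or (h0 : 0 ≤ r) (hinv : ∀ j x, μ.w (flip j x) = μ.w x)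
    (hsw : ∀ x, μ.w (swp x) = μ.w x) {x : Sph 2} (hx : x ∈ μ.w.support) :
    x.1 0 ^ 2 = 1 ∨ x.1 0 ^ 2 ≤ Real.cos r := by
  by_cases h : x.1 1 = 0 ∧ x.1 2 = 0
  · left
    have h1 := sum3 x
    rw [h.1, h.2] at h1
    linarith
  · right
    have hy := flip_mem hinv (swp_mem hsw hx) 1
    have f0 : (flip 1 (swp x)).1 0 = x.1 0 := by
      rw [flip_apply, if_neg (by decide), swp0]
    have f1 : (flip 1 (swp x)).1 1 = -x.1 2 := by
      rw [flip_apply, if_pos rfl, swp1]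
    have f2 : (flip 1 (swp x)).1 2 = x.1 1 := by
      rw [flip_apply, if_neg (by decide), swp2]
    have hne : x ≠ flip 1 (swp x) := by
      intro he
      apply h
      have g1 : x.1 1 = -x.1 2 := by
        rw [← f1, ← he]
      have g2 : x.1 2 = x.1 1 := by
        rw [← f2, ← he]
      constructor <;> linarith
    have h1 := inner_le_cos h0 μ hx hy hne
    rw [inner3, f0, f1, f2] at h1
    nlinarith

/-- outside the axis every support point lies on one of the four mirrors -/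
private theorem type_or (h0 : 0 ≤ r) (hc0 : 0 ≤ Real.cos r) (hc : 2 * Real.cos r ^ 2 < 1)
    (hinv : ∀ j x, μ.w (flip j x) = μ.w x) (hsw : ∀ x, μ.w (swp x) = μ.w x) {x : Sph 2}
    (hx : x ∈ μ.w.support) (hs : x.1 0 ^ 2 ≤ Real.cos r) :
    x.1 1 * x.1 2 = 0 ∨ x.1 1 ^ 2 = x.1 2 ^ 2 := by
  by_contra hcon
  push Not at hcon
  obtain ⟨ha, hb⟩ := hcon
  have a1 : x.1 1 ≠ 0 := left_ne_zero_of_mul ha
  have a2 : x.1 2 ≠ 0 := right_ne_zero_of_mul ha
  have b1 := sq_ge h0 hinv hx a1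
  have b2 := sq_ge h0 hinv hx a2
  have b3 := two_orb h0 hinv hx (swp_mem hsw hx) (j := 1) (by rw [swp1]; exact hb)
  rw [swp0, swp1, swp2] at b3
  have hsum := sum3 x
  set c : ℝ := Real.cos r with hcdef
  set s : ℝ := x.1 0 ^ 2 with hsdef
  set p : ℝ := x.1 1 ^ 2 with hpdef
  set q : ℝ := x.1 2 ^ 2 with hqdef
  set m : ℝ := |x.1 1| * |x.1 2| with hmdef
  have hm : m ^ 2 = p * q := by
    rw [hmdef, mul_pow, sq_abs, sq_abs]
  have hm0 : 0 ≤ m := mul_nonneg (abs_nonneg _) (abs_nonneg _)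
  have hss : |x.1 0| * |x.1 0| = s := by rw [abs_mul_abs_self, hsdef, sq]
  have b4 : s + 2 * m ≤ c := by
    have : |x.1 2| * |x.1 1| = m := by rw [hmdef, mul_comm]
    rw [hss, this] at b3
    linarith
  have hs0 : 0 ≤ s := sq_nonneg _
  have hc1 : c < 1 := by nlinarith
  have k1 : (p - q) ^ 2 ≤ (c - s) ^ 2 := by
    rcases le_total q p with h | h
    · have : p - q ≤ c - s := by linarith
      exact pow_le_pow_left₀ (by linarith) this 2
    · have h5 : q - p ≤ c - s := by linarith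
      have h6 : (q - p) ^ 2 ≤ (c - s) ^ 2 := pow_le_pow_left₀ (by linarith) h5 2
      nlinarith
  have k2 : (2 * m) ^ 2 ≤ (c - s) ^ 2 := pow_le_pow_left₀ (by linarith) (by linarith) 2
  have k3 : (1 - s) ^ 2 ≤ 2 * (c - s) ^ 2 := by
    have : (1 - s) ^ 2 = (p - q) ^ 2 + (2 * m) ^ 2 := by
      rw [mul_pow, hm]
      have : 1 - s = p + q := by linarith
      rw [this]
      ring
    linarith
  have k4 : (c - s) ^ 2 ≤ (c * (1 - s)) ^ 2 := by
    refine pow_le_pow_left₀ (by linarith) ?_ 2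
    nlinarith
  have k5 : (c * (1 - s)) ^ 2 = c ^ 2 * (1 - s) ^ 2 := by ring
  have k6 : 0 < (1 - s) ^ 2 := by
    have : 0 < 1 - s := by linarith
    positivity
  nlinarith

end

/-! ## Arithmetic -/

private theorem quad_low {q : ℝ} (h0 : 1 / 7 ≤ q) (h1 : q ≤ 1 / 2) :
    0 < 6 * (1 / 7) * q - (1 / 7) ^ 2 - q ^ 2 - 2 * (1 / 7) * q * (1 / 7 + q) -
      (1 / 7) ^ 2 * q ^ 2 := by
  nlinarith [mul_nonneg (sub_nonneg.2 h0) (sub_nonneg.2 h1)]

private theorem quad_high {q : ℝ} (h0 : 1 / 7 ≤ q) (h1 : q ≤ 1 / 2) :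
    0 < 6 * (1 / 2) * q - (1 / 2) ^ 2 - q ^ 2 - 2 * (1 / 2) * q * (1 / 2 + q) -
      (1 / 2) ^ 2 * q ^ 2 := by
  nlinarith [mul_nonneg (sub_nonneg.2 h0) (sub_nonneg.2 h1)]

private theorem quart {p q : ℝ} (p0 : 1 / 7 ≤ p) (p1 : p ≤ 1 / 2) (q0 : 1 / 7 ≤ q)
    (q1 : q ≤ 1 / 2) : (p + q - 3 * (p * q)) ^ 2 < 8 * (p * q * (1 - p) * (1 - q)) := by
  have hl := quad_low q0 q1
  have hh := quad_high q0 q1
  have h1 : 8 * (p * q * (1 - p) * (1 - q)) - (p + q - 3 * (p * q)) ^ 2 =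
      (1 / 2 - p) * (14 / 5) * (6 * (1 / 7) * q - (1 / 7) ^ 2 - q ^ 2 -
        2 * (1 / 7) * q * (1 / 7 + q) - (1 / 7) ^ 2 * q ^ 2) +
      (p - 1 / 7) * (14 / 5) * (6 * (1 / 2) * q - (1 / 2) ^ 2 - q ^ 2 -
        2 * (1 / 2) * q * (1 / 2 + q) - (1 / 2) ^ 2 * q ^ 2) +
      (1 + q) ^ 2 * ((p - 1 / 7) * (1 / 2 - p)) := by
    ring
  have h2 : 0 ≤ (1 + q) ^ 2 * ((p - 1 / 7) * (1 / 2 - p)) :=
    mul_nonneg (sq_nonneg _) (mul_nonneg (by linarith) (by linarith))
  rcases eq_or_lt_of_le p1 with h | h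
  · have h3 : 0 < (p - 1 / 7) * (14 / 5) * (6 * (1 / 2) * q - (1 / 2) ^ 2 - q ^ 2 -
        2 * (1 / 2) * q * (1 / 2 + q) - (1 / 2) ^ 2 * q ^ 2) :=
      mul_pos (by linarith) hh
    have h4 : 0 ≤ (1 / 2 - p) * (14 / 5) * (6 * (1 / 7) * q - (1 / 7) ^ 2 - q ^ 2 -
        2 * (1 / 7) * q * (1 / 7 + q) - (1 / 7) ^ 2 * q ^ 2) :=
      mul_nonneg (by linarith) hl.le
    linarith
  · have h3 : 0 ≤ (p - 1 / 7) * (14 / 5) * (6 * (1 / 2) * q - (1 / 2) ^ 2 - q ^ 2 -
        2 * (1 / 2) * q * (1 / 2 + q) - (1 / 2) ^ 2 * q ^ 2) :=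
      mul_nonneg (by linarith) hh.le
    have h4 : 0 < (1 / 2 - p) * (14 / 5) * (6 * (1 / 7) * q - (1 / 7) ^ 2 - q ^ 2 -
        2 * (1 / 7) * q * (1 / 7 + q) - (1 / 7) ^ 2 * q ^ 2) :=
      mul_pos (by linarith) hl
    linarith

/-- a point of the mirror `x₁ = x₂` and a point of the mirror `x₂ = 0` -/
private theorem diag_edge {c z z' a b : ℝ} (hc : 2 * c ^ 2 < 1) (hc0 : 0 ≤ c)
    (hz : 0 ≤ z) (hz' : 0 ≤ z') (ha : 0 ≤ a) (hb : 0 ≤ b) (h1 : z ^ 2 + 2 * a ^ 2 = 1)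
    (h2 : z' ^ 2 + b ^ 2 = 1) (hzl : (1 - c) / 2 ≤ z ^ 2) (hzu : z ^ 2 ≤ c ^ 2)
    (hzl' : (1 - c) / 2 ≤ z' ^ 2) (hzu' : z' ^ 2 ≤ c ^ 2) : c < z * z' + a * b := by
  have hc7 : c < 5 / 7 := by
    by_contra h
    rw [not_lt] at h
    nlinarith
  set p : ℝ := z ^ 2 with hp
  set q : ℝ := z' ^ 2 with hq
  have ha2 : a ^ 2 = (1 - p) / 2 := by linarith
  have hb2 : b ^ 2 = 1 - q := by linarith
  have hquart := quart (p := p) (q := q) (by linarith) (by linarith) (by linarith) (by linarith)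
  set M : ℝ := z * z' * (a * b) with hM
  have hM0 : 0 ≤ M := mul_nonneg (mul_nonneg hz hz') (mul_nonneg ha hb)
  have hM2 : M ^ 2 = p * q * ((1 - p) / 2 * (1 - q)) := by
    rw [hM, mul_pow, mul_pow, mul_pow, ha2, hb2]
  have h3 : (p + q - 3 * (p * q)) ^ 2 < (4 * M) ^ 2 := by
    rw [mul_pow, hM2]
    linarith
  have h4 : p + q - 3 * (p * q) < 4 * M :=
    lt_of_pow_lt_pow_left₀ 2 (by linarith) h3
  have h5 : (z * z' + a * b) ^ 2 = p * q + (1 - p) / 2 * (1 - q) + 2 * M := by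
    have : (z * z' + a * b) ^ 2 = z ^ 2 * z' ^ 2 + a ^ 2 * b ^ 2 + 2 * (z * z' * (a * b)) := by
      ring
    rw [this, ← hp, ← hq, ha2, hb2]
  have h6 : c ^ 2 < (z * z' + a * b) ^ 2 := by
    rw [h5]
    nlinarith
  exact lt_of_pow_lt_pow_left₀ 2 (add_nonneg (mul_nonneg hz hz') (mul_nonneg ha hb)) h6

private theorem abs_lt_of {c b s : ℝ} (hb : 0 ≤ b) (h : s + b ^ 2 = 1)
    (hs : s ≤ c ^ 2) (hc : 2 * c ^ 2 < 1) : c < b := by
  refine lt_of_pow_lt_pow_left₀ 2 hb ?_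
  nlinarith

/-- the orbits where `t7` is positive -/
def Pos7 (x : Sph 2) : Prop :=
  (x.1 0 = 0 ∧ x.1 1 * x.1 2 = 0) ∨ (x.1 0 ≠ 0 ∧ x.1 1 ^ 2 = x.1 2 ^ 2)

/-- the orbits where `t7` is negative -/
def Neg7 (x : Sph 2) : Prop :=
  (x.1 0 = 0 ∧ x.1 1 ^ 2 = x.1 2 ^ 2) ∨ (x.1 0 ≠ 0 ∧ x.1 1 * x.1 2 = 0)

private theorem t7_of_prod {c : ℝ} {x : Sph 2} (h : x.1 1 * x.1 2 = 0) :
    t7 c x = ((1 - c) / 4 - x.1 0 ^ 2) * (1 - x.1 0 ^ 2) ^ 2 := by
  unfold t7
  have h1 : x.1 1 ^ 2 * x.1 2 ^ 2 = 0 := by rw [← mul_pow, h]; ring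
  have h2 : x.1 1 ^ 2 + x.1 2 ^ 2 = 1 - x.1 0 ^ 2 := by linarith [sum3 x]
  rw [h1, h2]
  ring

private theorem t7_of_eq {c : ℝ} {x : Sph 2} (h : x.1 1 ^ 2 = x.1 2 ^ 2) :
    t7 c x = -(((1 - c) / 4 - x.1 0 ^ 2) * (1 - x.1 0 ^ 2) ^ 2) := by
  unfold t7
  have h2 : x.1 0 ^ 2 = 1 - 2 * x.1 2 ^ 2 := by linarith [sum3 x]
  rw [h, h2]
  ring

section

variable {r : ℝ} {μ : AVR (geo 2) r}

private theorem t7_pos (h0 : 0 ≤ r) (hinv : ∀ j x, μ.w (flip j x) = μ.w x)
    (hc1 : Real.cos r < 1) {x : Sph 2} (hx : x ∈ μ.w.support) (hs : x.1 0 ^ 2 ≤ Real.cos r)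
    (h : Pos7 x) : 0 < t7 (Real.cos r) x := by
  have h2 : 0 < (1 - x.1 0 ^ 2) ^ 2 := by
    have : 0 < 1 - x.1 0 ^ 2 := by linarith
    positivity
  rcases h with ⟨h3, h4⟩ | ⟨h3, h4⟩
  · rw [t7_of_prod h4, h3]
    rw [h3] at h2
    exact mul_pos (by linarith) h2
  · rw [t7_of_eq h4]
    have h5 := sq_ge h0 hinv hx h3
    have h6 : (1 - Real.cos r) / 4 - x.1 0 ^ 2 < 0 := by linarith
    nlinarith

private theorem t7_neg (h0 : 0 ≤ r) (hinv : ∀ j x, μ.w (flip j x) = μ.w x)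
    (hc1 : Real.cos r < 1) {x : Sph 2} (hx : x ∈ μ.w.support) (hs : x.1 0 ^ 2 ≤ Real.cos r)
    (h : Neg7 x) : t7 (Real.cos r) x < 0 := by
  have h2 : 0 < (1 - x.1 0 ^ 2) ^ 2 := by
    have : 0 < 1 - x.1 0 ^ 2 := by linarith
    positivity
  rcases h with ⟨h3, h4⟩ | ⟨h3, h4⟩
  · rw [t7_of_eq h4, h3]
    rw [h3] at h2
    have : 0 < ((1 - Real.cos r) / 4 - 0 ^ 2) * (1 - 0 ^ 2) ^ 2 := mul_pos (by linarith) h2
    linarith
  · rw [t7_of_prod h4]
    have h5 := sq_ge h0 hinv hx h3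
    have h6 : (1 - Real.cos r) / 4 - x.1 0 ^ 2 < 0 := by linarith
    exact mul_neg_of_neg_of_pos h6 h2

private theorem abs_eq_of {x : Sph 2} (h : x.1 1 ^ 2 = x.1 2 ^ 2) : |x.1 1| = |x.1 2| := by
  rw [← Real.sqrt_sq_eq_abs, ← Real.sqrt_sq_eq_abs, h]

/-- the two kinds do not occur together with the axis -/
private theorem incompat (h0 : 0 ≤ r) (hc0 : 0 ≤ Real.cos r) (hc : 2 * Real.cos r ^ 2 < 1)
    (hinv : ∀ j x, μ.w (flip j x) = μ.w x) (hsw : ∀ x, μ.w (swp x) = μ.w x) {x y : Sph 2}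
    (hx : x ∈ μ.w.support) (hy : y ∈ μ.w.support) (hxc : x.1 0 ^ 2 ≤ Real.cos r ^ 2)
    (hyc : y.1 0 ^ 2 ≤ Real.cos r ^ 2) (px : Pos7 x) (py : Neg7 y) : False := by
  set c : ℝ := Real.cos r with hcdef
  have hsx := sum3 x
  have hsy := sum3 y
  have nx0 := abs_nonneg (x.1 0)
  have nx1 := abs_nonneg (x.1 1)
  have nx2 := abs_nonneg (x.1 2)
  have ny0 := abs_nonneg (y.1 0)
  have ny1 := abs_nonneg (y.1 1)
  have ny2 := abs_nonneg (y.1 2)
  rcases px with ⟨x0, hx12⟩ | ⟨x0, hx12⟩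
  · -- `x` is one of the four points of the square
    have e0 : |x.1 0| = 0 := by rw [x0, abs_zero]
    rcases py with ⟨y0, hy12⟩ | ⟨y0, hy12⟩
    · have hab := abs_eq_of hy12
      have hy2 : 2 * |y.1 1| ^ 2 = 1 := by
        rw [sq_abs]
        rw [y0] at hsy
        linarith
      have hlt : c < |y.1 1| := by
        refine lt_of_pow_lt_pow_left₀ 2 ny1 ?_
        linarith
      rcases mul_eq_zero.1 hx12 with h | h
      · have h2 : |x.1 2| ^ 2 = 1 := by
          rw [sq_abs]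
          rw [x0, h] at hsx
          linarith
        have h3 : |x.1 2| = 1 := by nlinarith
        have h4 := two_orb h0 hinv hx hy (j := 1) (by
          rw [h]
          intro h5
          have h6 : |y.1 1| ^ 2 = 0 := by rw [sq_abs, ← h5]; ring
          linarith)
        rw [e0, h3, h, abs_zero, ← hab] at h4
        linarith
      · have h2 : |x.1 1| ^ 2 = 1 := by
          rw [sq_abs]
          rw [x0, h] at hsx
          linarith
        have h3 : |x.1 1| = 1 := by nlinarith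
        have h4 := two_orb h0 hinv hx hy (j := 2) (by
          rw [h]
          intro h5
          have h6 : |y.1 2| ^ 2 = 0 := by rw [sq_abs, ← h5]; ring
          rw [← hab] at h6
          linarith)
        rw [e0, h3, h, abs_zero] at h4
        linarith
    · have hy0 : 0 < y.1 0 ^ 2 := by positivity
      have key : ∀ x' : Sph 2, x' ∈ μ.w.support → x'.1 0 = 0 →
          ∀ k : Fin 3, |x'.1 k| * |y.1 k| ≤ c := by
        intro x' hx' hx0 k
        have h4 := two_orb h0 hinv hx' hy (j := 0) (by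
          rw [hx0]
          intro h5
          rw [← h5] at hy0
          norm_num at hy0)
        have m0 := mul_nonneg (abs_nonneg (x'.1 0)) ny0
        have m1 := mul_nonneg (abs_nonneg (x'.1 1)) ny1
        have m2 := mul_nonneg (abs_nonneg (x'.1 2)) ny2
        have hk3 : k = 0 ∨ k = 1 ∨ k = 2 := by
          revert k
          decide
        rcases hk3 with rfl | rfl | rfl <;> linarith
      have hxs := swp_mem hsw hx
      have xs0 : (swp x).1 0 = 0 := by rw [swp0, x0]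
      rcases mul_eq_zero.1 hx12 with h | h
      · have h2 : |x.1 2| ^ 2 = 1 := by
          rw [sq_abs]
          rw [x0, h] at hsx
          linarith
        have h3 : |x.1 2| = 1 := by nlinarith
        rcases mul_eq_zero.1 hy12 with g | g
        · have g2 : y.1 0 ^ 2 + |y.1 2| ^ 2 = 1 := by
            rw [sq_abs]
            rw [g] at hsy
            linarith
          have := key x hx x0 2
          rw [h3, one_mul] at this
          exact absurd this (not_le.2 (abs_lt_of ny2 g2 hyc hc))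
        · have g2 : y.1 0 ^ 2 + |y.1 1| ^ 2 = 1 := by
            rw [sq_abs]
            rw [g] at hsy
            linarith
          have := key (swp x) hxs xs0 1
          rw [swp1, h3, one_mul] at this
          exact absurd this (not_le.2 (abs_lt_of ny1 g2 hyc hc))
      · have h2 : |x.1 1| ^ 2 = 1 := by
          rw [sq_abs]
          rw [x0, h] at hsx
          linarith
        have h3 : |x.1 1| = 1 := by nlinarith
        rcases mul_eq_zero.1 hy12 with g | g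
        · have g2 : y.1 0 ^ 2 + |y.1 2| ^ 2 = 1 := by
            rw [sq_abs]
            rw [g] at hsy
            linarith
          have := key (swp x) hxs xs0 2
          rw [swp2, h3, one_mul] at this
          exact absurd this (not_le.2 (abs_lt_of ny2 g2 hyc hc))
        · have g2 : y.1 0 ^ 2 + |y.1 1| ^ 2 = 1 := by
            rw [sq_abs]
            rw [g] at hsy
            linarith
          have := key x hx x0 1
          rw [h3, one_mul] at this
          exact absurd this (not_le.2 (abs_lt_of ny1 g2 hyc hc))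
  · have hxab := abs_eq_of hx12
    have hx0 : 0 < x.1 0 ^ 2 := by positivity
    have hx2 : |x.1 0| ^ 2 + 2 * |x.1 1| ^ 2 = 1 := by
      rw [sq_abs, sq_abs]
      linarith
    rcases py with ⟨y0, hy12⟩ | ⟨y0, hy12⟩
    · have hyab := abs_eq_of hy12
      have hy2 : 2 * |y.1 1| ^ 2 = 1 := by
        rw [sq_abs]
        rw [y0] at hsy
        linarith
      have h4 := two_orb h0 hinv hx hy (j := 0) (by
        rw [y0]
        intro h5
        rw [h5] at hx0
        norm_num at hx0)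
      rw [y0, abs_zero, mul_zero, ← hxab, ← hyab, zero_add] at h4
      have h5 : c < 2 * (|x.1 1| * |y.1 1|) := by
        refine lt_of_pow_lt_pow_left₀ 2 (by positivity) ?_
        have : (2 * (|x.1 1| * |y.1 1|)) ^ 2 = (2 * |x.1 1| ^ 2) * (2 * |y.1 1| ^ 2) := by ring
        rw [this, hy2, mul_one]
        have : |x.1 0| ^ 2 ≤ c ^ 2 := by rw [sq_abs]; exact hxc
        linarith
      linarith
    · have hne : ∃ j : Fin 3, x.1 j ^ 2 ≠ y.1 j ^ 2 := by
        have hx1 : 0 < x.1 1 ^ 2 := by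
          have : |x.1 0| ^ 2 ≤ c ^ 2 := by rw [sq_abs]; exact hxc
          have h7 : 0 < |x.1 1| ^ 2 := by linarith
          rw [sq_abs] at h7
          exact h7
        rcases mul_eq_zero.1 hy12 with g | g
        · refine ⟨1, ?_⟩
          rw [g]
          intro h5
          rw [h5] at hx1
          norm_num at hx1
        · refine ⟨2, ?_⟩
          rw [g, ← hx12]
          intro h5
          rw [h5] at hx1
          norm_num at hx1
      obtain ⟨j, hj⟩ := hne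
      have h4 := two_orb h0 hinv hx hy hj
      have hxl : (1 - c) / 2 ≤ |x.1 0| ^ 2 := by
        rw [sq_abs]
        exact sq_ge h0 hinv hx x0
      have hyl : (1 - c) / 2 ≤ |y.1 0| ^ 2 := by
        rw [sq_abs]
        exact sq_ge h0 hinv hy y0
      have hxc' : |x.1 0| ^ 2 ≤ c ^ 2 := by rw [sq_abs]; exact hxc
      have hyc' : |y.1 0| ^ 2 ≤ c ^ 2 := by rw [sq_abs]; exact hyc
      rcases mul_eq_zero.1 hy12 with g | g
      · have g2 : |y.1 0| ^ 2 + |y.1 2| ^ 2 = 1 := by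
          rw [sq_abs, sq_abs]
          rw [g] at hsy
          linarith
        have h5 := diag_edge hc hc0 nx0 ny0 nx1 ny2 hx2 g2 hxl hxc' hyl hyc'
        rw [g, abs_zero, mul_zero, ← hxab] at h4
        linarith
      · have g2 : |y.1 0| ^ 2 + |y.1 1| ^ 2 = 1 := by
          rw [sq_abs, sq_abs]
          rw [g] at hsy
          linarith
        have h5 := diag_edge hc hc0 nx0 ny0 nx1 ny1 hx2 g2 hxl hxc' hyl hyc'
        rw [g, abs_zero, mul_zero] at h4
        linarith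

/-- no common zero -/
theorem key7 (h0 : 0 ≤ r) (hc0 : 0 ≤ Real.cos r) (hc : 2 * Real.cos r ^ 2 < 1)
    (hinv : ∀ j x, μ.w (flip j x) = μ.w x) (hsw : ∀ x, μ.w (swp x) = μ.w x)
    (ht : ri (t7 (Real.cos r)) μ.w = 0) : ri (n7 (Real.cos r)) μ.w ≠ 1 / 3 := by
  intro hn
  have hc1 : Real.cos r < 1 := by nlinarith
  have hpole : ∃ P ∈ μ.w.support, P.1 0 ^ 2 = 1 := by
    by_contra hcon
    push Not at hcon
    have h1 : ri (n7 (Real.cos r)) μ.w = 0 := by
      refine ri_eq_of_const μ fun y hy => ?_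
      unfold n7
      rcases pole_or h0 hinv hsw hy with h2 | h2
      · exact absurd h2 (hcon y hy)
      · rw [max_eq_left (by linarith), zero_div]
    rw [h1] at hn
    norm_num at hn
  obtain ⟨P, hP, hP0⟩ := hpole
  have hnon : ∃ x ∈ μ.w.support, x.1 0 ^ 2 ≠ 1 := by
    by_contra hcon
    push Not at hcon
    have h1 : ri (n7 (Real.cos r)) μ.w = 1 := by
      refine ri_eq_of_const μ fun y hy => ?_
      unfold n7
      rw [hcon y hy, max_eq_right (by linarith), div_self (by linarith)]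
    rw [h1] at hn
    norm_num at hn
  obtain ⟨x, hx, hx0⟩ := hnon
  have hP1 : |P.1 0| = 1 := by
    have h1 : |P.1 0| ^ 2 = 1 := by rw [sq_abs]; exact hP0
    have := abs_nonneg (P.1 0)
    nlinarith
  have hle : ∀ y ∈ μ.w.support, y.1 0 ^ 2 ≠ 1 →
      y.1 0 ^ 2 ≤ Real.cos r ^ 2 ∧ y.1 0 ^ 2 ≤ Real.cos r := by
    intro y hy hy0
    constructor
    · have h1 := two_orb h0 hinv hP hy (j := 0) (by rw [hP0]; exact Ne.symm hy0)
      have m1 := mul_nonneg (abs_nonneg (P.1 1)) (abs_nonneg (y.1 1))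
      have m2 := mul_nonneg (abs_nonneg (P.1 2)) (abs_nonneg (y.1 2))
      rw [hP1, one_mul] at h1
      rw [← sq_abs]
      exact pow_le_pow_left₀ (abs_nonneg _) (by linarith) 2
    · rcases pole_or h0 hinv hsw hy with h2 | h2
      · exact absurd h2 hy0
      · exact h2
  have hPz : ∀ y : Sph 2, y.1 0 ^ 2 = 1 → t7 (Real.cos r) y = 0 := by
    intro y hy
    have h1 := sum3 y
    have p1 := sq_nonneg (y.1 1)
    have p2 := sq_nonneg (y.1 2)
    have h3 : y.1 1 ^ 2 = 0 := by linarith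
    have h4 : y.1 2 ^ 2 = 0 := by linarith
    unfold t7
    rw [h3, h4]
    ring
  have htype : ∀ y ∈ μ.w.support, y.1 0 ^ 2 ≠ 1 → Pos7 y ∨ Neg7 y := by
    intro y hy hy0
    have h1 := type_or h0 hc0 hc hinv hsw hy (hle y hy hy0).2
    unfold Pos7 Neg7
    by_cases h : y.1 0 = 0
    · rcases h1 with h2 | h2
      · exact Or.inl (Or.inl ⟨h, h2⟩)
      · exact Or.inr (Or.inl ⟨h, h2⟩)
    · rcases h1 with h2 | h2
      · exact Or.inr (Or.inr ⟨h, h2⟩)
      · exact Or.inl (Or.inr ⟨h, h2⟩)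
  have hsum : ri (t7 (Real.cos r)) μ.w = ∑ y ∈ μ.w.support, μ.w y * t7 (Real.cos r) y := rfl
  have hwx : 0 < μ.w x :=
    lt_of_le_of_ne (μ.nonneg x) (Ne.symm (Finsupp.mem_support_iff.1 hx))
  rcases htype x hx hx0 with px | px
  · have hpos : 0 < ∑ y ∈ μ.w.support, μ.w y * t7 (Real.cos r) y := by
      refine Finset.sum_pos' (fun y hy => ?_)
        ⟨x, hx, mul_pos hwx (t7_pos h0 hinv hc1 hx (hle x hx hx0).2 px)⟩
      refine mul_nonneg (μ.nonneg y) ?_
      by_cases hy0 : y.1 0 ^ 2 = 1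
      · rw [hPz y hy0]
      · rcases htype y hy hy0 with py | py
        · exact (t7_pos h0 hinv hc1 hy (hle y hy hy0).2 py).le
        · exact (incompat h0 hc0 hc hinv hsw hx hy (hle x hx hx0).1 (hle y hy hy0).1 px py).elim
    rw [← hsum, ht] at hpos
    exact lt_irrefl _ hpos
  · have hneg : 0 < ∑ y ∈ μ.w.support, μ.w y * -t7 (Real.cos r) y := by
      refine Finset.sum_pos' (fun y hy => ?_)
        ⟨x, hx, mul_pos hwx (neg_pos.2 (t7_neg h0 hinv hc1 hx (hle x hx hx0).2 px))⟩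
      refine mul_nonneg (μ.nonneg y) ?_
      by_cases hy0 : y.1 0 ^ 2 = 1
      · rw [hPz y hy0, neg_zero]
      · rcases htype y hy hy0 with py | py
        · exact (incompat h0 hc0 hc hinv hsw hy hx (hle y hy hy0).1 (hle x hx hx0).1 py px).elim
        · exact (neg_pos.2 (t7_neg h0 hinv hc1 hy (hle y hy hy0).2 py)).le
    have h1 : ∑ y ∈ μ.w.support, μ.w y * -t7 (Real.cos r) y =
        -∑ y ∈ μ.w.support, μ.w y * t7 (Real.cos r) y := by
      rw [← Finset.sum_neg_distrib]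
      exact Finset.sum_congr rfl fun y _ => by ring
    rw [h1, ← hsum, ht, neg_zero] at hneg
    exact lt_irrefl _ hneg

end

end Pool.Agent.H57.AV
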