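import Pool.Agent.H57.AV.Key7

/-!
# A loop of measures on the two-sphere through the poles, the square and orbits of eight points
-/

namespace Pool.Agent.H57.AV

open Pool.Agent.H73.Avr hiding cl
open Pool.Agent.H71.AV Pool.Agent.H70.AV
open Pool.Agent.H81.AV (swp swp_apply swp_swp swp_injective sg sg_apply lsg)
open Pool.Agent.H89.AVB (cont_fam pt3)

private theorem flip_sg (j : Fin 3) (e : Fin 3 → Bool) (x : Sph 2) :
    flip j (sg e x) = sg (fun i => if i = j then !(e i) else e i) x := by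
  apply Subtype.ext
  ext i
  rw [flip_apply, sg_apply, sg_apply]
  by_cases h : i = j
  · rw [if_pos h]
    cases he : e i <;> simp [h, he]
  · simp [h]

private theorem swp_sg (e : Fin 3 → Bool) (x : Sph 2) :
    swp (sg e x) = sg (fun i => e (Equiv.swap 1 2 i)) (swp x) := by
  apply Subtype.ext
  ext i
  rw [swp_apply, sg_apply, sg_apply, swp_apply]

private theorem sg_sq (e : Fin 3 → Bool) (x : Sph 2) (i : Fin 3) :
    (sg e x).1 i ^ 2 = x.1 i ^ 2 := by
  rw [sg_apply]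
  split_ifs
  · ring
  · rfl

private theorem sg_abs (e : Fin 3 → Bool) (x : Sph 2) (i : Fin 3) :
    |(sg e x).1 i| = |x.1 i| := by
  rw [sg_apply]
  split_ifs
  · rw [abs_neg]
  · rfl

private theorem inner3 (x y : Sph 2) :
    inner ℝ x.1 y.1 = x.1 0 * y.1 0 + x.1 1 * y.1 1 + x.1 2 * y.1 2 := by
  rw [inner_eq_sum, Fin.sum_univ_three]

/-! ## Combinations of orbits -/

/-- the measure with the weights `l i` on the orbits of the points `p i` -/
noncomputable def wM (p : Fin 5 → Sph 2) (l : Fin 5 → ℝ) : Sph 2 →₀ ℝ :=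
  ∑ q : Fin 5 × (Fin 3 → Bool), Finsupp.single (sg q.2 (p q.1)) (l q.1 / 8)

private theorem wM_support {p : Fin 5 → Sph 2} {l : Fin 5 → ℝ} {x : Sph 2}
    (hx : x ∈ (wM p l).support) : ∃ i e, l i ≠ 0 ∧ x = sg e (p i) := by
  classical
  by_contra hcon
  push Not at hcon
  rw [Finsupp.mem_support_iff] at hx
  apply hx
  unfold wM
  rw [Finsupp.finset_sum_apply]
  refine Finset.sum_eq_zero fun q _ => ?_
  by_cases h : l q.1 = 0
  · rw [h, zero_div, Finsupp.single_zero]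
    rfl
  · exact Finsupp.single_eq_of_ne (hcon q.1 q.2 h)

private theorem ri_sum' {n : ℕ} {ι : Type} (f : Sph n → ℝ) (s : Finset ι)
    (g : ι → Sph n →₀ ℝ) : ri f (∑ i ∈ s, g i) = ∑ i ∈ s, ri f (g i) := by
  classical
  induction s using Finset.induction_on with
  | empty =>
    rw [Finset.sum_empty, Finset.sum_empty]
    unfold ri
    exact Finsupp.sum_zero_index
  | insert a s ha ih => rw [Finset.sum_insert ha, Finset.sum_insert ha, ri_add, ih]

private theorem map_sum' {X Y ι : Type} (f : X → Y) (s : Finset ι) (g : ι → X →₀ ℝ) :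
    Finsupp.mapDomain f (∑ i ∈ s, g i) = ∑ i ∈ s, Finsupp.mapDomain f (g i) := by
  classical
  induction s using Finset.induction_on with
  | empty => rw [Finset.sum_empty, Finset.sum_empty, Finsupp.mapDomain_zero]
  | insert a s ha ih =>
    rw [Finset.sum_insert ha, Finset.sum_insert ha, Finsupp.mapDomain_add, ih]

theorem ri_wM {f : Sph 2 → ℝ} (hf : ∀ e x, f (sg e x) = f x) (p : Fin 5 → Sph 2)
    (l : Fin 5 → ℝ) : ri f (wM p l) = ∑ i, l i * f (p i) := by
  unfold wM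
  rw [ri_sum', Fintype.sum_prod_type]
  refine Finset.sum_congr rfl fun i _ => ?_
  simp only [ri_single, hf]
  rw [Finset.sum_const, Finset.card_univ]
  have hcard : Fintype.card (Fin 3 → Bool) = 8 := by
    simp
  rw [hcard, nsmul_eq_mul]
  push_cast
  ring

private def tog (j : Fin 3) : (Fin 3 → Bool) ≃ (Fin 3 → Bool) where
  toFun e := fun i => if i = j then !(e i) else e i
  invFun e := fun i => if i = j then !(e i) else e i
  left_inv e := by
    funext i
    by_cases h : i = j <;> simp [h]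
  right_inv e := by
    funext i
    by_cases h : i = j <;> simp [h]

private theorem wM_map_flip (j : Fin 3) (p : Fin 5 → Sph 2) (l : Fin 5 → ℝ) :
    (wM p l).mapDomain (flip j) = wM p l := by
  unfold wM
  rw [map_sum', Fintype.sum_prod_type, Fintype.sum_prod_type]
  refine Finset.sum_congr rfl fun i _ => ?_
  simp only [Finsupp.mapDomain_single, flip_sg]
  exact Equiv.sum_comp (tog j) (fun e => Finsupp.single (sg e (p i)) (l i / 8))

theorem wM_flip (j : Fin 3) (p : Fin 5 → Sph 2) (l : Fin 5 → ℝ) (x : Sph 2) :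
    wM p l (flip j x) = wM p l x := by
  conv_rhs => rw [← wM_map_flip j p l, ← flip_flip j x]
  rw [Finsupp.mapDomain_apply (flip_injective j)]

private def sws : (Fin 3 → Bool) ≃ (Fin 3 → Bool) where
  toFun e := fun i => e (Equiv.swap 1 2 i)
  invFun e := fun i => e (Equiv.swap 1 2 i)
  left_inv e := by
    funext i
    simp
  right_inv e := by
    funext i
    simp

private theorem wM_map_swp {p : Fin 5 → Sph 2} {l : Fin 5 → ℝ} (σ : Equiv.Perm (Fin 5))
    (hp : ∀ i, swp (p i) = p (σ i)) (hl : ∀ i, l (σ i) = l i) :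
    (wM p l).mapDomain swp = wM p l := by
  unfold wM
  rw [map_sum', Fintype.sum_prod_type, Fintype.sum_prod_type]
  simp only [Finsupp.mapDomain_single, swp_sg, hp]
  rw [← Equiv.sum_comp σ (fun i => ∑ e : Fin 3 → Bool,
    Finsupp.single (sg e (p i)) (l i / 8))]
  refine Finset.sum_congr rfl fun i _ => ?_
  simp only [hl]
  exact Equiv.sum_comp sws (fun e => Finsupp.single (sg e (p (σ i))) (l i / 8))

theorem wM_swp {p : Fin 5 → Sph 2} {l : Fin 5 → ℝ} (σ : Equiv.Perm (Fin 5))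
    (hp : ∀ i, swp (p i) = p (σ i)) (hl : ∀ i, l (σ i) = l i)
    (x : Sph 2) : wM p l (swp x) = wM p l x := by
  conv_rhs => rw [← wM_map_swp σ hp hl, ← swp_swp x]
  rw [Finsupp.mapDomain_apply swp_injective]

/-- a combination of orbits as a member of the thickening -/
noncomputable def mkM {r : ℝ} (hr0 : 0 ≤ r) (hr : r ≤ Real.pi) (p : Fin 5 → Sph 2)
    (l : Fin 5 → ℝ) (h0 : ∀ i, 0 ≤ l i) (h1 : ∑ i, l i = 1)
    (hself : ∀ i k, (p i).1 k = 0 ∨ 1 - 2 * (p i).1 k ^ 2 ≤ Real.cos r)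
    (horth : ∀ i j, i ≠ j → l i ≠ 0 → l j ≠ 0 →
      |(p i).1 0| * |(p j).1 0| + |(p i).1 1| * |(p j).1 1| + |(p i).1 2| * |(p j).1 2| ≤
        Real.cos r) :
    AVR (geo 2) r where
  w := wM p l
  nonneg := by
    intro x
    unfold wM
    rw [Finsupp.finset_sum_apply]
    exact Finset.sum_nonneg fun q _ => single_nonneg _ _ (div_nonneg (h0 _) (by norm_num))
  total := by
    have h := ri_wM (f := fun _ => 1) (fun _ _ => rfl) p l
    unfold ri at h
    simp only [mul_one] at h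
    rw [h, h1]
  spread := by
    intro x hx y hy hxy
    obtain ⟨i, e, hi, rfl⟩ := wM_support hx
    obtain ⟨j, e', hj, rfl⟩ := wM_support hy
    refine le_geo hr0 hr ?_
    by_cases hij : i = j
    · subst hij
      obtain ⟨k, hk⟩ : ∃ k, (sg e (p i)).1 k ≠ (sg e' (p i)).1 k := by
        by_contra h
        refine hxy (Subtype.ext ?_)
        ext k
        by_contra hk
        exact h ⟨k, hk⟩
      have h2 := inner_orb (a := fun k => (p i).1 k ^ 2) (x := sg e (p i)) (y := sg e' (p i))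
        (fun k => sg_sq e (p i) k) (fun k => sg_sq e' (p i) k) hk
      rcases hself i k with h3 | h3
      · exfalso
        apply hk
        rw [sg_apply, sg_apply, h3]
        simp
      · exact h2.trans h3
    · refine le_trans ?_ (horth i j hij hi hj)
      rw [inner3, ← sg_abs e (p i) 0, ← sg_abs e (p i) 1, ← sg_abs e (p i) 2,
        ← sg_abs e' (p j) 0, ← sg_abs e' (p j) 1, ← sg_abs e' (p j) 2, ← abs_mul, ← abs_mul,
        ← abs_mul]
      have a0 := le_abs_self ((sg e (p i)).1 0 * (sg e' (p j)).1 0)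
      have a1 := le_abs_self ((sg e (p i)).1 1 * (sg e' (p j)).1 1)
      have a2 := le_abs_self ((sg e (p i)).1 2 * (sg e' (p j)).1 2)
      linarith

/-! ## The points of the loop -/

private theorem pt3_cont {a b c : ℝ → ℝ} (h : ∀ t, a t ^ 2 + b t ^ 2 + c t ^ 2 = 1)
    (ha : Continuous a) (hb : Continuous b) (hc : Continuous c) :
    Continuous fun t => pt3 (a t) (b t) (c t) (h t) := by
  refine Continuous.subtype_mk ?_ _
  refine (PiLp.continuous_toLp 2 _).comp ?_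
  refine continuous_pi fun i => ?_
  fin_cases i
  · exact ha
  · exact hb
  · exact hc

private theorem sg_cont (e : Fin 3 → Bool) : Continuous (sg e) := by
  refine Continuous.subtype_mk ?_ _
  show Continuous fun x : Sph 2 => lsg e x.1
  unfold lsg
  refine (PiLp.continuous_toLp 2 _).comp ?_
  refine continuous_pi fun i => ?_
  have hi : Continuous fun x : Sph 2 => x.1 i := by fun_prop
  by_cases h : e i
  · simp only [h, if_true]
    exact hi.neg
  · simp only [h]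
    exact hi

private theorem sq_aux1 (u : ℝ) : (√(cl u)) ^ 2 + (√(1 - cl u)) ^ 2 + (0 : ℝ) ^ 2 = 1 := by
  have h0 := cl_nonneg u
  have h1 := cl_le_one u
  rw [Real.sq_sqrt h0, Real.sq_sqrt (by linarith)]
  ring

private theorem sq_aux2 (u : ℝ) : (√(cl u)) ^ 2 + (0 : ℝ) ^ 2 + (√(1 - cl u)) ^ 2 = 1 := by
  have h0 := cl_nonneg u
  have h1 := cl_le_one u
  rw [Real.sq_sqrt h0, Real.sq_sqrt (by linarith)]
  ring

/-- the five base points -/
noncomputable def bq (u : ℝ) : Fin 5 → Sph 2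
  | 0 => pt3 1 0 0 (by norm_num)
  | 1 => pt3 0 1 0 (by norm_num)
  | 2 => pt3 0 0 1 (by norm_num)
  | 3 => pt3 (√(cl u)) (√(1 - cl u)) 0 (sq_aux1 u)
  | 4 => pt3 (√(cl u)) 0 (√(1 - cl u)) (sq_aux2 u)

private theorem fin5 (i : Fin 5) : i = 0 ∨ i = 1 ∨ i = 2 ∨ i = 3 ∨ i = 4 := by
  revert i
  decide

private theorem fin4 (i : Fin 4) : i = 0 ∨ i = 1 ∨ i = 2 ∨ i = 3 := by
  revert i
  decide

private theorem fin3 (i : Fin 3) : i = 0 ∨ i = 1 ∨ i = 2 := by
  revert i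
  decide

private theorem bq_cont {u : ℝ → ℝ} (hu : Continuous u) (i : Fin 5) :
    Continuous fun t => bq (u t) i := by
  have hc := cl_continuous.comp hu
  rcases fin5 i with rfl | rfl | rfl | rfl | rfl
  · exact continuous_const
  · exact continuous_const
  · exact continuous_const
  · exact pt3_cont (fun t => sq_aux1 (u t)) (Real.continuous_sqrt.comp hc)
      (Real.continuous_sqrt.comp (continuous_const.sub hc)) continuous_const
  · exact pt3_cont (fun t => sq_aux2 (u t)) (Real.continuous_sqrt.comp hc) continuous_const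
      (Real.continuous_sqrt.comp (continuous_const.sub hc))

private theorem cl_of_mem {u : ℝ} (h0 : 0 ≤ u) (h1 : u ≤ 1) : cl u = u := by
  unfold cl
  rw [min_eq_left h1, max_eq_right h0]

/-- the weights -/
noncomputable def wq (a b : ℝ) : Fin 5 → ℝ
  | 0 => a
  | 1 => b / 2
  | 2 => b / 2
  | 3 => (1 - a - b) / 2
  | 4 => (1 - a - b) / 2

/-- the permutation of the base points by the swap -/
def sig : Equiv.Perm (Fin 5) where
  toFun := ![0, 2, 1, 4, 3]
  invFun := ![0, 2, 1, 4, 3]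
  left_inv := by decide
  right_inv := by decide

private theorem bq_swp (u : ℝ) (i : Fin 5) : swp (bq u i) = bq u (sig i) := by
  have e0 : (Equiv.swap (1 : Fin 3) 2) 0 = 0 := by decide
  have e1 : (Equiv.swap (1 : Fin 3) 2) 1 = 2 := by decide
  have e2 : (Equiv.swap (1 : Fin 3) 2) 2 = 1 := by decide
  apply Subtype.ext
  ext k
  rw [swp_apply]
  rcases fin5 i with rfl | rfl | rfl | rfl | rfl
  · have f : sig 0 = 0 := by decide
    rw [f]
    rcases fin3 k with rfl | rfl | rfl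
    · rw [e0]
    · rw [e1]; rfl
    · rw [e2]; rfl
  · have f : sig 1 = 2 := by decide
    rw [f]
    rcases fin3 k with rfl | rfl | rfl
    · rw [e0]; rfl
    · rw [e1]; rfl
    · rw [e2]; rfl
  · have f : sig 2 = 1 := by decide
    rw [f]
    rcases fin3 k with rfl | rfl | rfl
    · rw [e0]; rfl
    · rw [e1]; rfl
    · rw [e2]; rfl
  · have f : sig 3 = 4 := by decide
    rw [f]
    rcases fin3 k with rfl | rfl | rfl
    · rw [e0]; rfl
    · rw [e1]; rfl
    · rw [e2]; rfl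
  · have f : sig 4 = 3 := by decide
    rw [f]
    rcases fin3 k with rfl | rfl | rfl
    · rw [e0]; rfl
    · rw [e1]; rfl
    · rw [e2]; rfl

private theorem wq_swp (a b : ℝ) (i : Fin 5) : wq a b (sig i) = wq a b i := by
  rcases fin5 i with rfl | rfl | rfl | rfl | rfl
  · have f : sig 0 = 0 := by decide
    rw [f]
  · have f : sig 1 = 2 := by decide
    rw [f]; rfl
  · have f : sig 2 = 1 := by decide
    rw [f]; rfl
  · have f : sig 3 = 4 := by decide
    rw [f]; rfl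
  · have f : sig 4 = 3 := by decide
    rw [f]; rfl

private theorem bq_self {c u : ℝ} (hc : -1 ≤ c) (hc1 : c ≤ 1) (hu0 : (1 - c) / 2 ≤ u)
    (hu1 : u ≤ c) (i : Fin 5) (k : Fin 3) :
    (bq u i).1 k = 0 ∨ 1 - 2 * (bq u i).1 k ^ 2 ≤ c := by
  have h0 : 0 ≤ u := by linarith
  have h1 : u ≤ 1 := by linarith
  have s1 : 1 - 2 * (√(cl u)) ^ 2 ≤ c := by
    rw [Real.sq_sqrt (cl_nonneg u), cl_of_mem h0 h1]
    linarith
  have s2 : 1 - 2 * (√(1 - cl u)) ^ 2 ≤ c := by
    rw [cl_of_mem h0 h1, Real.sq_sqrt (by linarith)]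
    linarith
  have s3 : 1 - 2 * (1 : ℝ) ^ 2 ≤ c := by linarith
  rcases fin5 i with rfl | rfl | rfl | rfl | rfl
  · rcases fin3 k with rfl | rfl | rfl
    · right; exact s3
    · left; rfl
    · left; rfl
  · rcases fin3 k with rfl | rfl | rfl
    · left; rfl
    · right; exact s3
    · left; rfl
  · rcases fin3 k with rfl | rfl | rfl
    · left; rfl
    · left; rfl
    · right; exact s3
  · rcases fin3 k with rfl | rfl | rfl
    · right; exact s1
    · right; exact s2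
    · left; rfl
  · rcases fin3 k with rfl | rfl | rfl
    · right; exact s1
    · left; rfl
    · right; exact s2

/-- admissible parameters -/
structure Adm (c a b u : ℝ) : Prop where
  ha : 0 ≤ a
  hb : 0 ≤ b
  hab : a + b ≤ 1
  hu0 : (1 - c) / 2 ≤ u
  hu1 : u ≤ c
  k1 : a = 0 ∨ a + b = 1 ∨ u = (1 - c) / 2
  k2 : b = 0 ∨ a + b = 1 ∨ u = c

private theorem bq_orth {a b c u : ℝ} (hc0 : 1 / 2 ≤ c) (hc1 : c ≤ 1) (hc : 1 ≤ c ^ 2 + c)
    (h : Adm c a b u) (i j : Fin 5) (hij : i ≠ j) (hi : wq a b i ≠ 0) (hj : wq a b j ≠ 0) :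
    |(bq u i).1 0| * |(bq u j).1 0| + |(bq u i).1 1| * |(bq u j).1 1| +
      |(bq u i).1 2| * |(bq u j).1 2| ≤ c := by
  have h0 : 0 ≤ u := le_trans (by linarith) h.hu0
  have h1 : u ≤ 1 := h.hu1.trans hc1
  have e1 : a ≠ 0 → (1 - a - b) / 2 ≠ 0 → |√(cl u)| ≤ c := by
    intro ha hb
    rw [abs_of_nonneg (Real.sqrt_nonneg _), cl_of_mem h0 h1]
    rcases h.k1 with g | g | g
    · exact absurd g ha
    · exact absurd (by linarith) hb
    · rw [g]
      refine Real.sqrt_le_iff.2 ⟨by linarith, by nlinarith⟩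
  have e2 : b / 2 ≠ 0 → (1 - a - b) / 2 ≠ 0 → |√(1 - cl u)| ≤ c := by
    intro ha hb
    rw [abs_of_nonneg (Real.sqrt_nonneg _), cl_of_mem h0 h1]
    rcases h.k2 with g | g | g
    · exact absurd (by rw [g]; ring) ha
    · exact absurd (by linarith) hb
    · rw [g]
      refine Real.sqrt_le_iff.2 ⟨by linarith, by linarith⟩
  have e3 : |√(cl u)| * |√(cl u)| ≤ c := by
    rw [abs_mul_abs_self, Real.mul_self_sqrt (cl_nonneg u), cl_of_mem h0 h1]
    exact h.hu1
  have hcp : 0 ≤ c := by linarith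
  rcases fin5 i with rfl | rfl | rfl | rfl | rfl <;>
    rcases fin5 j with rfl | rfl | rfl | rfl | rfl
  · exact absurd rfl hij
  · show |(1 : ℝ)| * |(0 : ℝ)| + |(0 : ℝ)| * |(1 : ℝ)| + |(0 : ℝ)| * |(0 : ℝ)| ≤ c
    simpa using hcp
  · show |(1 : ℝ)| * |(0 : ℝ)| + |(0 : ℝ)| * |(0 : ℝ)| + |(0 : ℝ)| * |(1 : ℝ)| ≤ c
    simpa using hcp
  · show |(1 : ℝ)| * |√(cl u)| + |(0 : ℝ)| * |√(1 - cl u)| + |(0 : ℝ)| * |(0 : ℝ)| ≤ c
    rw [abs_one, abs_zero, one_mul, zero_mul, zero_mul, add_zero, add_zero]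
    exact e1 hi hj
  · show |(1 : ℝ)| * |√(cl u)| + |(0 : ℝ)| * |(0 : ℝ)| + |(0 : ℝ)| * |√(1 - cl u)| ≤ c
    rw [abs_one, abs_zero, one_mul, zero_mul, zero_mul, add_zero, add_zero]
    exact e1 hi hj
  · show |(0 : ℝ)| * |(1 : ℝ)| + |(1 : ℝ)| * |(0 : ℝ)| + |(0 : ℝ)| * |(0 : ℝ)| ≤ c
    simpa using hcp
  · exact absurd rfl hij
  · show |(0 : ℝ)| * |(0 : ℝ)| + |(1 : ℝ)| * |(0 : ℝ)| + |(0 : ℝ)| * |(1 : ℝ)| ≤ c
    simpa using hcp
  · show |(0 : ℝ)| * |√(cl u)| + |(1 : ℝ)| * |√(1 - cl u)| + |(0 : ℝ)| * |(0 : ℝ)| ≤ c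
    rw [abs_one, abs_zero, one_mul, zero_mul, zero_mul, add_zero, zero_add]
    exact e2 hi hj
  · show |(0 : ℝ)| * |√(cl u)| + |(1 : ℝ)| * |(0 : ℝ)| + |(0 : ℝ)| * |√(1 - cl u)| ≤ c
    rw [abs_zero, zero_mul, zero_mul, mul_zero, add_zero, add_zero]
    exact hcp
  · show |(0 : ℝ)| * |(1 : ℝ)| + |(0 : ℝ)| * |(0 : ℝ)| + |(1 : ℝ)| * |(0 : ℝ)| ≤ c
    simpa using hcp
  · show |(0 : ℝ)| * |(0 : ℝ)| + |(0 : ℝ)| * |(1 : ℝ)| + |(1 : ℝ)| * |(0 : ℝ)| ≤ c
    simpa using hcp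
  · exact absurd rfl hij
  · show |(0 : ℝ)| * |√(cl u)| + |(0 : ℝ)| * |√(1 - cl u)| + |(1 : ℝ)| * |(0 : ℝ)| ≤ c
    rw [abs_zero, zero_mul, zero_mul, mul_zero, add_zero, add_zero]
    exact hcp
  · show |(0 : ℝ)| * |√(cl u)| + |(0 : ℝ)| * |(0 : ℝ)| + |(1 : ℝ)| * |√(1 - cl u)| ≤ c
    rw [abs_one, abs_zero, one_mul, zero_mul, zero_mul, zero_add, zero_add]
    exact e2 hi hj
  · show |√(cl u)| * |(1 : ℝ)| + |√(1 - cl u)| * |(0 : ℝ)| + |(0 : ℝ)| * |(0 : ℝ)| ≤ c
    rw [abs_one, abs_zero, mul_one, mul_zero, mul_zero, add_zero, add_zero]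
    exact e1 hj hi
  · show |√(cl u)| * |(0 : ℝ)| + |√(1 - cl u)| * |(1 : ℝ)| + |(0 : ℝ)| * |(0 : ℝ)| ≤ c
    rw [abs_one, abs_zero, mul_one, mul_zero, mul_zero, add_zero, zero_add]
    exact e2 hj hi
  · show |√(cl u)| * |(0 : ℝ)| + |√(1 - cl u)| * |(0 : ℝ)| + |(0 : ℝ)| * |(1 : ℝ)| ≤ c
    rw [abs_zero, mul_zero, mul_zero, zero_mul, add_zero, add_zero]
    exact hcp
  · exact absurd rfl hij
  · show |√(cl u)| * |√(cl u)| + |√(1 - cl u)| * |(0 : ℝ)| + |(0 : ℝ)| * |√(1 - cl u)| ≤ c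
    rw [abs_zero, mul_zero, zero_mul, add_zero, add_zero]
    exact e3
  · show |√(cl u)| * |(1 : ℝ)| + |(0 : ℝ)| * |(0 : ℝ)| + |√(1 - cl u)| * |(0 : ℝ)| ≤ c
    rw [abs_one, abs_zero, mul_one, mul_zero, mul_zero, add_zero, add_zero]
    exact e1 hj hi
  · show |√(cl u)| * |(0 : ℝ)| + |(0 : ℝ)| * |(1 : ℝ)| + |√(1 - cl u)| * |(0 : ℝ)| ≤ c
    rw [abs_zero, mul_zero, mul_zero, zero_mul, add_zero, add_zero]
    exact hcp
  · show |√(cl u)| * |(0 : ℝ)| + |(0 : ℝ)| * |(0 : ℝ)| + |√(1 - cl u)| * |(1 : ℝ)| ≤ c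
    rw [abs_one, abs_zero, mul_one, mul_zero, mul_zero, zero_add, zero_add]
    exact e2 hj hi
  · show |√(cl u)| * |√(cl u)| + |(0 : ℝ)| * |√(1 - cl u)| + |√(1 - cl u)| * |(0 : ℝ)| ≤ c
    rw [abs_zero, mul_zero, zero_mul, add_zero, add_zero]
    exact e3
  · exact absurd rfl hij

/-- the members of the loop -/
noncomputable def mk7 {r : ℝ} (hr0 : 0 ≤ r) (hr : r ≤ Real.pi) (hc0 : 1 / 2 ≤ Real.cos r)
    (hc : 1 ≤ Real.cos r ^ 2 + Real.cos r) (a b u : ℝ) (h : Adm (Real.cos r) a b u) :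
    AVR (geo 2) r :=
  mkM hr0 hr (bq u) (wq a b)
    (by
      intro i
      have h1 : 0 ≤ (1 - a - b) / 2 := by linarith [h.hab]
      rcases fin5 i with rfl | rfl | rfl | rfl | rfl
      · exact h.ha
      · exact div_nonneg h.hb (by norm_num)
      · exact div_nonneg h.hb (by norm_num)
      · exact h1
      · exact h1)
    (by
      rw [Fin.sum_univ_five]
      show a + b / 2 + b / 2 + (1 - a - b) / 2 + (1 - a - b) / 2 = 1
      ring)
    (bq_self (by linarith) (Real.cos_le_one r) h.hu0 h.hu1)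
    (bq_orth hc0 (Real.cos_le_one r) hc h)

section

variable {r : ℝ} (hr0 : 0 ≤ r) (hr : r ≤ Real.pi) (hc0 : 1 / 2 ≤ Real.cos r)
    (hc : 1 ≤ Real.cos r ^ 2 + Real.cos r)

private theorem mk7_w (a b u : ℝ) (h : Adm (Real.cos r) a b u) :
    (mk7 hr0 hr hc0 hc a b u h).w = wM (bq u) (wq a b) := rfl

private theorem mk7_ext {a b u a' b' u' : ℝ} {h h'} (e1 : a = a') (e2 : b = b')
    (e3 : a + b = 1 ∨ u = u') :
    mk7 hr0 hr hc0 hc a b u h = mk7 hr0 hr hc0 hc a' b' u' h' := by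
  subst e1
  subst e2
  rcases e3 with h3 | h3
  · apply AVR.ext
    rw [mk7_w, mk7_w]
    unfold wM
    refine Finset.sum_congr rfl fun q hq => ?_
    clear hq
    obtain ⟨i, v⟩ := q
    have h0 : (1 - a - b) / 2 = 0 := by linarith
    rcases fin5 i with rfl | rfl | rfl | rfl | rfl
    · rfl
    · rfl
    · rfl
    · have h4 : wq a b 3 = 0 := h0
      simp only [h4, zero_div, Finsupp.single_zero]
    · have h4 : wq a b 4 = 0 := h0
      simp only [h4, zero_div, Finsupp.single_zero]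
  · subst h3
    rfl

private theorem cont_mk7 (a b u : ℝ → ℝ) (h : ∀ t, Adm (Real.cos r) (a t) (b t) (u t))
    (ka : Continuous a) (kb : Continuous b) (ku : Continuous u) :
    Continuous fun t => mk7 hr0 hr hc0 hc (a t) (b t) (u t) (h t) := by
  have hwt : ∀ i : Fin 5, Continuous fun t => wq (a t) (b t) i := by
    intro i
    rcases fin5 i with rfl | rfl | rfl | rfl | rfl
    · exact ka
    · exact kb.div_const _
    · exact kb.div_const _
    · exact ((continuous_const.sub ka).sub kb).div_const _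
    · exact ((continuous_const.sub ka).sub kb).div_const _
  have hw0 : ∀ t, ∀ i : Fin 5, 0 ≤ wq (a t) (b t) i := by
    intro t i
    have h1 : 0 ≤ (1 - a t - b t) / 2 := by linarith [(h t).hab]
    rcases fin5 i with rfl | rfl | rfl | rfl | rfl
    · exact (h t).ha
    · exact div_nonneg (h t).hb (by norm_num)
    · exact div_nonneg (h t).hb (by norm_num)
    · exact h1
    · exact h1
  refine cont_fam (ι := Fin 5 × (Fin 3 → Bool)) (fun t q => sg q.2 (bq (u t) q.1))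
    (fun t q => wq (a t) (b t) q.1 / 8) ?_ ?_ ?_ ?_ _ (fun t => rfl)
  · intro q
    exact (sg_cont q.2).comp (bq_cont ku q.1)
  · intro q
    exact (hwt q.1).div_const _
  · intro t q
    exact div_nonneg (hw0 t q.1) (by norm_num)
  · intro t
    rw [Fintype.sum_prod_type]
    simp only [Finset.sum_const, Finset.card_univ, nsmul_eq_mul]
    have hcard : Fintype.card (Fin 3 → Bool) = 8 := by
      simp
    rw [hcard, Fin.sum_univ_five]
    show ((8 : ℕ) : ℝ) * (a t / 8) + ((8 : ℕ) : ℝ) * (b t / 2 / 8) +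
      ((8 : ℕ) : ℝ) * (b t / 2 / 8) + ((8 : ℕ) : ℝ) * ((1 - a t - b t) / 2 / 8) +
      ((8 : ℕ) : ℝ) * ((1 - a t - b t) / 2 / 8) = 1
    push_cast
    ring

end

private theorem t7_sg (c : ℝ) (e : Fin 3 → Bool) (x : Sph 2) : t7 c (sg e x) = t7 c x := by
  unfold t7
  simp only [sg_sq]

private theorem n7_sg (c : ℝ) (e : Fin 3 → Bool) (x : Sph 2) : n7 c (sg e x) = n7 c x := by
  unfold n7
  simp only [sg_sq]

private theorem ri_t7 {a b c u : ℝ} (h0 : 0 ≤ u) (h1 : u ≤ 1) :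
    ri (t7 c) (wM (bq u) (wq a b)) =
      b * ((1 - c) / 4) + (1 - a - b) * (((1 - c) / 4 - u) * (1 - u) ^ 2) := by
  rw [ri_wM (t7_sg c), Fin.sum_univ_five]
  have e0 : t7 c (bq u 0) = 0 := by
    show ((1 - c) / 4 - (1 : ℝ) ^ 2) * (((0 : ℝ) ^ 2 + 0 ^ 2) ^ 2 - 8 * ((0 : ℝ) ^ 2 * 0 ^ 2)) = 0
    norm_num
  have e1 : t7 c (bq u 1) = (1 - c) / 4 := by
    show ((1 - c) / 4 - (0 : ℝ) ^ 2) * (((1 : ℝ) ^ 2 + 0 ^ 2) ^ 2 - 8 * ((1 : ℝ) ^ 2 * 0 ^ 2)) = _
    norm_num
  have e2 : t7 c (bq u 2) = (1 - c) / 4 := by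
    show ((1 - c) / 4 - (0 : ℝ) ^ 2) * (((0 : ℝ) ^ 2 + 1 ^ 2) ^ 2 - 8 * ((0 : ℝ) ^ 2 * 1 ^ 2)) = _
    norm_num
  have e3 : t7 c (bq u 3) = ((1 - c) / 4 - u) * (1 - u) ^ 2 := by
    show ((1 - c) / 4 - (√(cl u)) ^ 2) * (((√(1 - cl u)) ^ 2 + (0 : ℝ) ^ 2) ^ 2 -
      8 * ((√(1 - cl u)) ^ 2 * (0 : ℝ) ^ 2)) = _
    rw [cl_of_mem h0 h1, Real.sq_sqrt h0, Real.sq_sqrt (by linarith)]
    ring
  have e4 : t7 c (bq u 4) = ((1 - c) / 4 - u) * (1 - u) ^ 2 := by
    show ((1 - c) / 4 - (√(cl u)) ^ 2) * (((0 : ℝ) ^ 2 + (√(1 - cl u)) ^ 2) ^ 2 -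
      8 * ((0 : ℝ) ^ 2 * (√(1 - cl u)) ^ 2)) = _
    rw [cl_of_mem h0 h1, Real.sq_sqrt h0, Real.sq_sqrt (by linarith)]
    ring
  rw [e0, e1, e2, e3, e4]
  show a * 0 + b / 2 * _ + b / 2 * _ + (1 - a - b) / 2 * _ + (1 - a - b) / 2 * _ = _
  ring

private theorem ri_n7 {a b c u : ℝ} (h0 : 0 ≤ u) (h1 : u ≤ c) (hc1 : c < 1) :
    ri (n7 c) (wM (bq u) (wq a b)) = a := by
  rw [ri_wM (n7_sg c), Fin.sum_univ_five]
  have hu1 : u ≤ 1 := h1.trans hc1.le
  have e0 : n7 c (bq u 0) = 1 := by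
    show max 0 ((1 : ℝ) ^ 2 - c) / (1 - c) = 1
    rw [one_pow, max_eq_right (by linarith), div_self (by linarith)]
  have e1 : n7 c (bq u 1) = 0 := by
    show max 0 ((0 : ℝ) ^ 2 - c) / (1 - c) = 0
    rw [max_eq_left (by linarith), zero_div]
  have e2 : n7 c (bq u 2) = 0 := by
    show max 0 ((0 : ℝ) ^ 2 - c) / (1 - c) = 0
    rw [max_eq_left (by linarith), zero_div]
  have e3 : n7 c (bq u 3) = 0 := by
    show max 0 ((√(cl u)) ^ 2 - c) / (1 - c) = 0
    rw [cl_of_mem h0 hu1, Real.sq_sqrt h0, max_eq_left (by linarith), zero_div]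
  have e4 : n7 c (bq u 4) = 0 := by
    show max 0 ((√(cl u)) ^ 2 - c) / (1 - c) = 0
    rw [cl_of_mem h0 hu1, Real.sq_sqrt h0, max_eq_left (by linarith), zero_div]
  rw [e0, e1, e2, e3, e4]
  show a * 1 + _ * 0 + _ * 0 + _ * 0 + _ * 0 = _
  ring

/-- the factor in front of the second detecting function -/
noncomputable def e7 (c : ℝ) : ℝ := (1 - c) / 4 * ((1 + c) / 2) ^ 2

/-- a loop of measures on the two-sphere, invariant under all sign changes and under the swap of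
the last two coordinates -/
theorem exists_loop7 {r : ℝ} (hr0 : 0 ≤ r) (hr : r ≤ Real.pi) (hc0 : 1 / 2 ≤ Real.cos r)
    (hc : 1 ≤ Real.cos r ^ 2 + Real.cos r) (hc1 : Real.cos r < 1) :
    ∃ pth : Fin 4 → ℝ → AVR (geo 2) r, (∀ i, Continuous (pth i)) ∧
      (∀ i t j x, (pth i t).w (flip j x) = (pth i t).w x) ∧
      (∀ i t x, (pth i t).w (swp x) = (pth i t).w x) ∧
      (∀ i, pth i 1 = pth (i + 1) 0) ∧
      (∀ t, 0 < e7 (Real.cos r) * (ri (n7 (Real.cos r)) (pth 0 t).w - 1 / 3)) ∧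
      |e7 (Real.cos r) * (ri (n7 (Real.cos r)) (pth 0 0).w - 1 / 3)| <
        ri (t7 (Real.cos r)) (pth 0 0).w ∧
      |e7 (Real.cos r) * (ri (n7 (Real.cos r)) (pth 0 1).w - 1 / 3)| <
        -ri (t7 (Real.cos r)) (pth 0 1).w ∧
      (∀ i, i ≠ 0 → ∀ t, e7 (Real.cos r) * (ri (n7 (Real.cos r)) (pth i t).w - 1 / 3) <
        |ri (t7 (Real.cos r)) (pth i t).w|) := by
  set c : ℝ := Real.cos r with hcdef
  have s0 : 0 < (1 - c) / 2 := by linarith
  have E0 : 0 < e7 c := by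
    unfold e7
    have h1 : 0 < (1 - c) / 4 := by linarith
    have h2 : 0 < (1 + c) / 2 := by linarith
    positivity
  have E1 : e7 c ≤ (1 - c) / 4 := by
    unfold e7
    have h1 : 0 ≤ (1 - c) / 4 := by linarith
    have h2 : ((1 + c) / 2) ^ 2 ≤ 1 := by nlinarith
    nlinarith
  have E2 : ((1 - c) / 4 - (1 - c) / 2) * (1 - (1 - c) / 2) ^ 2 = -e7 c := by
    unfold e7
    ring
  have A0 : ∀ t, Adm c (1 - max 0 (1 / 2 - cl t) - max 0 (cl t - 1 / 2))
      (max 0 (1 / 2 - cl t)) ((1 - c) / 2) := fun t => by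
    have k0 := cl_nonneg t
    have k1 := cl_le_one t
    have m0 : 0 ≤ max 0 (1 / 2 - cl t) := le_max_left _ _
    have m1 : 0 ≤ max 0 (cl t - 1 / 2) := le_max_left _ _
    have m2 : max 0 (1 / 2 - cl t) ≤ 1 / 2 := max_le (by norm_num) (by linarith)
    have m3 : max 0 (cl t - 1 / 2) ≤ 1 / 2 := max_le (by norm_num) (by linarith)
    refine ⟨by linarith, m0, by linarith, le_refl _, by linarith, Or.inr (Or.inr rfl), ?_⟩
    rcases le_total (cl t) (1 / 2) with h | h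
    · right; left
      rw [max_eq_left (by linarith : cl t - 1 / 2 ≤ 0)]
      ring
    · left
      exact max_eq_left (by linarith)
  have A1 : ∀ t, Adm c (max 0 (1 / 2 - cl t)) 0
      ((1 - c) / 2 + (c - (1 - c) / 2) * max 0 (2 * cl t - 1)) := fun t => by
    have k0 := cl_nonneg t
    have k1 := cl_le_one t
    have m0 : 0 ≤ max 0 (1 / 2 - cl t) := le_max_left _ _
    have m1 : max 0 (1 / 2 - cl t) ≤ 1 / 2 := max_le (by norm_num) (by linarith)
    have m2 : 0 ≤ max 0 (2 * cl t - 1) := le_max_left _ _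
    have m3 : max 0 (2 * cl t - 1) ≤ 1 := max_le (by norm_num) (by linarith)
    have p0 : 0 ≤ c - (1 - c) / 2 := by linarith
    have p1 : 0 ≤ (c - (1 - c) / 2) * max 0 (2 * cl t - 1) := mul_nonneg p0 m2
    have p2 : (c - (1 - c) / 2) * max 0 (2 * cl t - 1) ≤ c - (1 - c) / 2 := by nlinarith
    refine ⟨m0, le_refl _, by linarith, by linarith, by linarith, ?_, Or.inl rfl⟩
    rcases le_total (cl t) (1 / 2) with h | h
    · right; right
      rw [max_eq_left (by linarith : 2 * cl t - 1 ≤ 0)]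
      ring
    · left
      exact max_eq_left (by linarith)
  have A2 : ∀ t, Adm c 0 (cl t) c := fun t => by
    have k0 := cl_nonneg t
    have k1 := cl_le_one t
    exact ⟨le_refl _, k0, by linarith, by linarith, le_refl _, Or.inl rfl,
      Or.inr (Or.inr rfl)⟩
  have A3 : ∀ t, Adm c (cl t / 2) (1 - cl t / 2) ((1 - c) / 2) := fun t => by
    have k0 := cl_nonneg t
    have k1 := cl_le_one t
    exact ⟨by linarith, by linarith, by linarith, le_refl _, by linarith,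
      Or.inr (Or.inr rfl), Or.inr (Or.inl (by ring))⟩
  have kcl := cl_continuous
  have kM : Continuous fun t => max 0 (1 / 2 - cl t) :=
    continuous_const.max (continuous_const.sub kcl)
  have kN : Continuous fun t => max 0 (cl t - 1 / 2) :=
    continuous_const.max (kcl.sub continuous_const)
  have kP : Continuous fun t => max 0 (2 * cl t - 1) :=
    continuous_const.max ((continuous_const.mul kcl).sub continuous_const)
  have C0 := cont_mk7 hr0 hr hc0 hc
    (fun t => 1 - max 0 (1 / 2 - cl t) - max 0 (cl t - 1 / 2))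
    (fun t => max 0 (1 / 2 - cl t)) (fun _ => (1 - c) / 2) A0
    ((continuous_const.sub kM).sub kN) kM continuous_const
  have C1 := cont_mk7 hr0 hr hc0 hc (fun t => max 0 (1 / 2 - cl t)) (fun _ => 0)
    (fun t => (1 - c) / 2 + (c - (1 - c) / 2) * max 0 (2 * cl t - 1)) A1 kM
    continuous_const (continuous_const.add (continuous_const.mul kP))
  have C2 := cont_mk7 hr0 hr hc0 hc (fun _ => 0) (fun t => cl t) (fun _ => c) A2
    continuous_const kcl continuous_const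
  have C3 := cont_mk7 hr0 hr hc0 hc (fun t => cl t / 2) (fun t => 1 - cl t / 2)
    (fun _ => (1 - c) / 2) A3 (kcl.div_const _) (continuous_const.sub (kcl.div_const _))
    continuous_const
  have hfix : ∀ (a b u : ℝ) (h : Adm c a b u) (j : Fin 3) (x : Sph 2),
      (mk7 hr0 hr hc0 hc a b u h).w (flip j x) = (mk7 hr0 hr hc0 hc a b u h).w x :=
    fun a b u h j x => wM_flip j _ _ x
  have hsw : ∀ (a b u : ℝ) (h : Adm c a b u) (x : Sph 2),
      (mk7 hr0 hr hc0 hc a b u h).w (swp x) = (mk7 hr0 hr hc0 hc a b u h).w x :=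
    fun a b u h x => wM_swp sig (bq_swp u) (wq_swp a b) x
  have hn : ∀ (a b u : ℝ) (h : Adm c a b u),
      ri (n7 c) (mk7 hr0 hr hc0 hc a b u h).w = a :=
    fun a b u h => ri_n7 (s0.le.trans h.hu0) h.hu1 hc1
  have ht : ∀ (a b u : ℝ) (h : Adm c a b u), ri (t7 c) (mk7 hr0 hr hc0 hc a b u h).w =
      b * ((1 - c) / 4) + (1 - a - b) * (((1 - c) / 4 - u) * (1 - u) ^ 2) :=
    fun a b u h => ri_t7 (s0.le.trans h.hu0) (h.hu1.trans hc1.le)
  refine ⟨![fun t => mk7 hr0 hr hc0 hc (1 - max 0 (1 / 2 - cl t) - max 0 (cl t - 1 / 2))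
      (max 0 (1 / 2 - cl t)) ((1 - c) / 2) (A0 t),
    fun t => mk7 hr0 hr hc0 hc (max 0 (1 / 2 - cl t)) 0
      ((1 - c) / 2 + (c - (1 - c) / 2) * max 0 (2 * cl t - 1)) (A1 t),
    fun t => mk7 hr0 hr hc0 hc 0 (cl t) c (A2 t),
    fun t => mk7 hr0 hr hc0 hc (cl t / 2) (1 - cl t / 2) ((1 - c) / 2) (A3 t)],
    ?_, ?_, ?_, ?_, ?_, ?_, ?_, ?_⟩
  · intro i
    rcases fin4 i with rfl | rfl | rfl | rfl
    · exact C0
    · exact C1
    · exact C2
    · exact C3
  · intro i t j x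
    rcases fin4 i with rfl | rfl | rfl | rfl
    · exact hfix _ _ _ (A0 t) j x
    · exact hfix _ _ _ (A1 t) j x
    · exact hfix _ _ _ (A2 t) j x
    · exact hfix _ _ _ (A3 t) j x
  · intro i t x
    rcases fin4 i with rfl | rfl | rfl | rfl
    · exact hsw _ _ _ (A0 t) x
    · exact hsw _ _ _ (A1 t) x
    · exact hsw _ _ _ (A2 t) x
    · exact hsw _ _ _ (A3 t) x
  · intro i
    rcases fin4 i with rfl | rfl | rfl | rfl
    · show mk7 hr0 hr hc0 hc _ _ _ (A0 1) = mk7 hr0 hr hc0 hc _ _ _ (A1 0)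
      refine mk7_ext hr0 hr hc0 hc ?_ ?_ (Or.inr ?_)
      · rw [cl_one, cl_zero, max_eq_left (by norm_num : (1 / 2 - 1 : ℝ) ≤ 0),
          max_eq_right (by norm_num : (0 : ℝ) ≤ 1 - 1 / 2),
          max_eq_right (by norm_num : (0 : ℝ) ≤ 1 / 2 - 0)]
        norm_num
      · rw [cl_one, max_eq_left (by norm_num : (1 / 2 - 1 : ℝ) ≤ 0)]
      · rw [cl_zero, max_eq_left (by norm_num : (2 * 0 - 1 : ℝ) ≤ 0)]
        ring
    · show mk7 hr0 hr hc0 hc _ _ _ (A1 1) = mk7 hr0 hr hc0 hc _ _ _ (A2 0)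
      refine mk7_ext hr0 hr hc0 hc ?_ ?_ (Or.inr ?_)
      · rw [cl_one, max_eq_left (by norm_num : (1 / 2 - 1 : ℝ) ≤ 0)]
      · rw [cl_zero]
      · rw [cl_one, max_eq_right (by norm_num : (0 : ℝ) ≤ 2 * 1 - 1)]
        ring
    · show mk7 hr0 hr hc0 hc _ _ _ (A2 1) = mk7 hr0 hr hc0 hc _ _ _ (A3 0)
      refine mk7_ext hr0 hr hc0 hc ?_ ?_ (Or.inl ?_)
      · rw [cl_zero, zero_div]
      · rw [cl_one, cl_zero]
        ring
      · rw [cl_one]
        ring
    · show mk7 hr0 hr hc0 hc _ _ _ (A3 1) = mk7 hr0 hr hc0 hc _ _ _ (A0 0)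
      refine mk7_ext hr0 hr hc0 hc ?_ ?_ (Or.inl ?_)
      · rw [cl_one, cl_zero, max_eq_left (by norm_num : (0 - 1 / 2 : ℝ) ≤ 0),
          max_eq_right (by norm_num : (0 : ℝ) ≤ 1 / 2 - 0)]
        norm_num
      · rw [cl_one, cl_zero, max_eq_right (by norm_num : (0 : ℝ) ≤ 1 / 2 - 0)]
        norm_num
      · rw [cl_one]
        ring
  · intro t
    show 0 < e7 c * (ri (n7 c) (mk7 hr0 hr hc0 hc _ _ _ (A0 t)).w - 1 / 3)
    rw [hn]
    have k0 := cl_nonneg t
    have k1 := cl_le_one t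
    refine mul_pos E0 ?_
    rcases le_total (cl t) (1 / 2) with h | h
    · rw [max_eq_left (by linarith : cl t - 1 / 2 ≤ 0),
        max_eq_right (by linarith : 0 ≤ 1 / 2 - cl t)]
      linarith
    · rw [max_eq_right (by linarith : 0 ≤ cl t - 1 / 2),
        max_eq_left (by linarith : 1 / 2 - cl t ≤ 0)]
      linarith
  · show |e7 c * (ri (n7 c) (mk7 hr0 hr hc0 hc _ _ _ (A0 0)).w - 1 / 3)| <
      ri (t7 c) (mk7 hr0 hr hc0 hc _ _ _ (A0 0)).w
    rw [hn, ht, cl_zero, max_eq_left (by norm_num : (0 - 1 / 2 : ℝ) ≤ 0),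
      max_eq_right (by norm_num : (0 : ℝ) ≤ 1 / 2 - 0), abs_of_pos (by linarith)]
    linarith
  · show |e7 c * (ri (n7 c) (mk7 hr0 hr hc0 hc _ _ _ (A0 1)).w - 1 / 3)| <
      -ri (t7 c) (mk7 hr0 hr hc0 hc _ _ _ (A0 1)).w
    rw [hn, ht, cl_one, max_eq_left (by norm_num : (1 / 2 - 1 : ℝ) ≤ 0),
      max_eq_right (by norm_num : (0 : ℝ) ≤ 1 - 1 / 2), E2, abs_of_pos (by linarith)]
    linarith
  · intro i hi t
    have k0 := cl_nonneg t
    have k1 := cl_le_one t
    rcases fin4 i with rfl | rfl | rfl | rfl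
    · exact absurd rfl hi
    · show e7 c * (ri (n7 c) (mk7 hr0 hr hc0 hc _ _ _ (A1 t)).w - 1 / 3) <
        |ri (t7 c) (mk7 hr0 hr hc0 hc _ _ _ (A1 t)).w|
      rw [hn, ht]
      rcases le_total (cl t) (1 / 2) with h | h
      · rw [max_eq_right (by linarith : 0 ≤ 1 / 2 - cl t),
          max_eq_left (by linarith : 2 * cl t - 1 ≤ 0), mul_zero, add_zero, E2]
        refine lt_of_lt_of_le ?_ (neg_le_abs _)
        nlinarith
      · rw [max_eq_left (by linarith : 1 / 2 - cl t ≤ 0)]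
        refine lt_of_lt_of_le ?_ (abs_nonneg _)
        linarith
    · show e7 c * (ri (n7 c) (mk7 hr0 hr hc0 hc _ _ _ (A2 t)).w - 1 / 3) <
        |ri (t7 c) (mk7 hr0 hr hc0 hc _ _ _ (A2 t)).w|
      rw [hn]
      refine lt_of_lt_of_le ?_ (abs_nonneg _)
      linarith
    · show e7 c * (ri (n7 c) (mk7 hr0 hr hc0 hc _ _ _ (A3 t)).w - 1 / 3) <
        |ri (t7 c) (mk7 hr0 hr hc0 hc _ _ _ (A3 t)).w|
      rw [hn, ht]
      refine lt_of_lt_of_le ?_ (le_abs_self _)
      have h1 : 1 - cl t / 2 - (1 - cl t / 2) = 0 := by ring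
      have h2 : 1 - cl t / 2 - (1 - cl t / 2) = (0 : ℝ) := h1
      have h3 : (1 : ℝ) - cl t / 2 - (1 - cl t / 2) = 0 := by ring
      rw [h3, zero_mul, add_zero]
      nlinarith

end Pool.Agent.H57.AV
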